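import Mathlib

/-!
A counterexample to Z.-W. Sun's conjecture on disjoint cosets.  The group is
`G = ((C₃ × A₄) ⋊ C₂) × C₂ × C₂` of order `288`; it contains `49` pairwise disjoint left cosets:
`47` of subgroups of index `48`, one of a subgroup of index `96` and one of a subgroup of index
`144`.  All the gcds equal `48 < 49`.
-/

namespace Pool.Agent.Results.MP_3175b5_al.Counter

open Pointwise

/-- `(v, w, k, s, z)`: `x ↦ ± x + v` on `𝔽₃`, `x ↦ ω^k φ^s x + w` on `𝔽₄`, `z ∈ C₂ × C₂`. -/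
@[ext] structure G where
  v : Fin 3
  w : Fin 4
  k : Fin 3
  s : Fin 2
  z : Fin 4
deriving DecidableEq

def e (s : Fin 2) (v : Fin 3) : Fin 3 := if s = 0 then v else -v
def ad (a b : Fin 4) : Fin 4 := if a = 0 then b else if a = 1 then ![1, 0, 3, 2] b
  else if a = 2 then ![2, 3, 0, 1] b else ![3, 2, 1, 0] b
def om (w : Fin 4) : Fin 4 := ![0, 2, 3, 1] w
def fr (s : Fin 2) (w : Fin 4) : Fin 4 := if s = 0 then w else ![0, 1, 3, 2] w
def r (k : Fin 3) (s : Fin 2) (w : Fin 4) : Fin 4 :=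
  if k = 0 then fr s w else if k = 1 then om (fr s w) else om (om (fr s w))

instance : Mul G := ⟨fun a b =>
  ⟨a.v + e a.s b.v, ad a.w (r a.k a.s b.w), a.k + e a.s b.k, a.s + b.s, ad a.z b.z⟩⟩
instance : One G := ⟨⟨0, 0, 0, 0, 0⟩⟩
instance : Inv G := ⟨fun a => ⟨-e a.s a.v, r (-e a.s a.k) a.s a.w, -e a.s a.k, a.s, a.z⟩⟩

theorem h1 : ∀ (a b c : Fin 3) (s t : Fin 2),
    a + e s b + e (s + t) c = a + e s (b + e t c) := by decide +kernel
theorem h2 : ∀ (a b c : Fin 4) (k l : Fin 3) (s t : Fin 2),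
    ad (ad a (r k s b)) (r (k + e s l) (s + t) c) = ad a (r k s (ad b (r l t c))) := by
  decide +kernel
theorem h3 : ∀ a b c : Fin 4, ad (ad a b) c = ad a (ad b c) := by decide +kernel
theorem h4 : ∀ (v : Fin 3) (w : Fin 4) (k : Fin 3) (s : Fin 2) (z : Fin 4),
    (1 : G) * ⟨v, w, k, s, z⟩ = ⟨v, w, k, s, z⟩ ∧ (⟨v, w, k, s, z⟩ : G)⁻¹ * ⟨v, w, k, s, z⟩ = 1 := by
  decide +kernel

instance : Group G := Group.ofLeftAxioms
  (fun a b c => G.ext (h1 _ _ _ _ _) (h2 _ _ _ _ _ _ _) (h1 _ _ _ _ _) (add_assoc _ _ _)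
    (h3 _ _ _))
  (fun a => (h4 a.v a.w a.k a.s a.z).1) (fun a => (h4 a.v a.w a.k a.s a.z).2)

def eqv : G ≃ Fin 3 × Fin 4 × Fin 3 × Fin 2 × Fin 4 where
  toFun a := (a.v, a.w, a.k, a.s, a.z)
  invFun a := ⟨a.1, a.2.1, a.2.2.1, a.2.2.2.1, a.2.2.2.2⟩
  left_inv _ := rfl
  right_inv _ := rfl

theorem cardG : Nat.card G = 288 := by
  rw [Nat.card_congr eqv]; simp

instance : Finite G := Finite.of_equiv _ eqv.symm

def dec (n : ℕ) : G :=
  ⟨Fin.ofNat 3 n, Fin.ofNat 4 (n / 3), Fin.ofNat 3 (n / 12), Fin.ofNat 2 (n / 36),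
    Fin.ofNat 4 (n / 72)⟩
def code (g : G) : ℕ := g.v.1 + 3 * (g.w.1 + 4 * (g.k.1 + 3 * (g.s.1 + 2 * g.z.1)))

def A : List ℕ := [12, 24, 27, 15, 18, 30, 33, 21, 9, 26, 84, 96, 99, 85, 97, 86, 144, 147, 162, 165, 153, 145, 163, 146, 149, 36, 48, 39, 63, 54, 66, 45, 64, 38, 65, 138, 114, 129, 117, 180, 183, 210, 186, 189, 184, 196, 206, 37, 6]
def LL : List (List ℕ) := [[0, 1, 2, 78, 79, 80], [0, 19, 29, 193, 212, 183], [0, 1, 2, 133, 134, 132], [0, 16, 35, 183, 202, 206], [0, 25, 14, 180, 205, 194], [0, 25, 14, 276, 265, 254], [0, 16, 35, 276, 256, 275], [0, 19, 29, 283, 257, 264], [0, 13, 26, 109, 122, 132], [0, 15, 33, 72, 87, 105], [0, 15, 33, 39, 57, 60], [0, 15, 33, 278, 257, 275], [0, 1, 2, 66, 67, 68], [0, 15, 33, 60, 39, 57], [0, 15, 33, 205, 184, 202], [0, 15, 33, 39, 57, 60], [0, 12, 24, 72, 84, 96], [0, 12, 24, 72, 84, 96], [0, 12, 24, 72, 84, 96], [0, 16, 35, 72, 88, 107], [0, 22, 32, 72, 94, 104], [0, 15, 33, 72, 87, 105],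 [0, 12, 24, 72, 84, 96], [0, 12, 24, 72, 84, 96], [0, 30, 21, 72, 102, 93], [0, 27, 18, 194, 185, 212], [0, 1, 2, 122, 120, 121], [0, 1, 2, 131, 129, 130], [0, 27, 18, 68, 50, 41], [0, 1, 2, 122, 120, 121], [0, 1, 2, 6, 7, 8], [0, 1, 2, 81, 82, 83], [0, 27, 18, 185, 212, 194], [0, 27, 18, 265, 256, 283], [0, 27, 18, 255, 282, 264], [0, 1, 2, 6, 7, 8], [0, 1, 2, 66, 67, 68], [0, 13, 26, 266, 276, 253], [0, 13, 26, 182, 192, 205], [0, 12, 24, 72, 84, 96], [0, 12, 24, 72, 84, 96], [0, 31, 23, 72, 103, 95], [0, 28, 20, 72, 100, 92], [0, 22, 32, 72, 94, 104], [0, 30, 21, 72, 102, 93], [0, 15, 33, 72, 87, 105], [0, 27, 18, 72, 99, 90], [0, 27, 18], [0, 9]]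
def big : ℕ := 3472574624466946375467665871588444203891589884947520094958635917710798046843977970405110300841306547862578594526808781265187833216718550216692988271988311450656951841562966576037055789294840076032251482166298013658185969304010874135232614957203387943820046771701408509111634748260558817468635800161770130952135481338711044629133692488574971468498867081689385349184997062215416725746598089720615538923597481224069116092367292674006643776375144247568108106689297947201721070077093704676975105993335298295230105822993330560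

def a (i : Fin 49) : G := dec (A.getD i.1 0)
def L (i : Fin 49) : List G := (LL.getD i.1 []).map dec
def own (g : G) : ℕ := big / 64 ^ code g % 64

theorem good : ∀ i : Fin 49, (1 : G) ∈ L i ∧ (∀ x ∈ L i, ∀ y ∈ L i, x * y ∈ L i) ∧
    (∀ x ∈ L i, x⁻¹ ∈ L i) ∧ (L i).Nodup ∧ ∀ x ∈ L i, own (a i * x) = i.1 := by
  decide +kernel

theorem gc : ∀ i j : Fin 49, i < j →
    Nat.gcd (288 / (L i).length) (288 / (L j).length) < 49 := by
  decide +kernel

def H (i : Fin 49) : Subgroup G where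
  carrier := {x | x ∈ L i}
  one_mem' := (good i).1
  mul_mem' := fun hx hy => (good i).2.1 _ hx _ hy
  inv_mem' := fun hx => (good i).2.2.1 _ hx

theorem idx (i : Fin 49) : (H i).index = 288 / (L i).length := by
  have hc : Nat.card (H i) = (L i).length := by
    rw [← List.toFinset_card_of_nodup (good i).2.2.2.1, ← Nat.card_eq_finsetCard]
    exact Nat.card_congr (Equiv.subtypeEquivRight fun x => List.mem_toFinset.symm)
  have h := (H i).card_mul_index
  rw [cardG, hc] at h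
  have hp : 0 < (L i).length := List.length_pos_of_mem (good i).1
  rw [← h, Nat.mul_div_cancel_left _ hp]

theorem result : ¬ ∀ (G : Type) [Group G] (k : ℕ), 2 ≤ k →
    ∀ (H : Fin k → Subgroup G) (a : Fin k → G), (∀ i, (H i).FiniteIndex) →
      (∀ i j, i ≠ j → Disjoint (a i • (H i : Set G)) (a j • (H j : Set G))) →
      ∃ i j, i < j ∧ k ≤ Nat.gcd (H i).index (H j).index := by
  intro h
  obtain ⟨i, j, hij, hk⟩ := h G 49 (by norm_num) H a (fun i => inferInstance) (by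
    intro i j hij
    rw [Set.disjoint_left]
    rintro g ⟨x, hx, rfl⟩ ⟨y, hy, hxy⟩
    have h1 := (good i).2.2.2.2 x hx
    have h2 := (good j).2.2.2.2 y hy
    have h3 : a j * y = a i * x := hxy
    rw [h3, h1] at h2
    exact hij (Fin.ext h2))
  rw [idx, idx] at hk
  exact absurd (gc i j hij) (not_lt.2 hk)

end Pool.Agent.Results.MP_3175b5_al.Counter
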